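import Mathlib

/-!
# Vanishing sums of roots of unity have at least as many terms as the least prime factor
-/

set_option autoImplicit false

open Finset Polynomial

namespace Pool.Agent.Helper61.KZ

/-- Conjugation of a vanishing sum of powers of a primitive root. -/
theorem conj_zero {N : ℕ} (hN : 0 < N) {ζ : ℂ} (hζ : IsPrimitiveRoot ζ N) {b : ℕ}
    (hb : Nat.Coprime b N) {ι : Type} (S : Finset ι) (a : ι → ℕ)
    (h : ∑ i ∈ S, ζ ^ a i = 0) : ∑ i ∈ S, (ζ ^ b) ^ a i = 0 := by
  set P : ℚ[X] := ∑ i ∈ S, X ^ a i with hP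
  have h1 : aeval ζ P = 0 := by simpa [hP] using h
  have h2 : minpoly ℚ ζ ∣ P := minpoly.dvd ℚ ζ h1
  have h3 : cyclotomic N ℚ = minpoly ℚ ζ := cyclotomic_eq_minpoly_rat hζ hN
  have h4 : aeval (ζ ^ b) (cyclotomic N ℚ) = 0 := by
    have h5 : IsPrimitiveRoot (ζ ^ b) N := hζ.pow_of_coprime b hb
    have h6 : cyclotomic N ℚ = minpoly ℚ (ζ ^ b) := cyclotomic_eq_minpoly_rat h5 hN
    rw [h6]
    exact minpoly.aeval ℚ _
  rw [h3] at h4
  obtain ⟨Q, hQ⟩ := h2
  have h7 : aeval (ζ ^ b) P = 0 := by rw [hQ, map_mul, h4, zero_mul]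
  simpa [hP] using h7

/-- Geometric sums of powers of a primitive root. -/
theorem sum_pow_eq {r : ℕ} {ω : ℂ} (hω : IsPrimitiveRoot ω r) (m : ℕ) :
    ∑ t ∈ range r, ω ^ (t * m) = if r ∣ m then (r : ℂ) else 0 := by
  split_ifs with h
  · have h1 : ∀ t ∈ range r, ω ^ (t * m) = 1 := by
      intro t _
      exact (hω.pow_eq_one_iff_dvd _).2 (h.mul_left t)
    rw [sum_congr rfl h1]
    simp
  · have h1 : ω ^ m ≠ 1 := fun h2 => h ((hω.pow_eq_one_iff_dvd _).1 h2)
    have h2 : ∑ t ∈ range r, ω ^ (t * m) = ∑ t ∈ range r, (ω ^ m) ^ t := by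
      refine sum_congr rfl fun t _ => ?_
      rw [← pow_mul, mul_comm]
    rw [h2, geom_sum_eq h1, ← pow_mul, mul_comm, pow_mul, hω.pow_eq_one, one_pow, sub_self,
      zero_div]

/-- Fourier inversion over the powers of `ζ ^ M`, `N = r * M`. -/
theorem class_sum {r M : ℕ} {ζ : ℂ} (hω : IsPrimitiveRoot (ζ ^ M) r) {ι : Type}
    (S : Finset ι) (a : ι → ℕ) (c : ℕ) :
    ∑ t ∈ range r, (ζ ^ M) ^ (t * c) * ∑ i ∈ S, (ζ ^ (1 + M * t)) ^ a i
      = (r : ℂ) * ∑ i ∈ S with r ∣ a i + c, ζ ^ a i := by
  have h1 : ∀ t ∈ range r, (ζ ^ M) ^ (t * c) * ∑ i ∈ S, (ζ ^ (1 + M * t)) ^ a i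
      = ∑ i ∈ S, ζ ^ a i * (ζ ^ M) ^ (t * (a i + c)) := by
    intro t _
    rw [mul_sum]
    refine sum_congr rfl fun i _ => ?_
    simp only [← pow_mul, ← pow_add]
    congr 1
    ring
  rw [sum_congr rfl h1, sum_comm, sum_filter, mul_sum]
  refine sum_congr rfl fun i _ => ?_
  rw [← mul_sum, sum_pow_eq hω]
  split_ifs
  · ring
  · simp

theorem lam_leung_light {N l : ℕ} (hN : 0 < N) (hl : ∀ q : ℕ, q.Prime → q ∣ N → l ≤ q)
    (ζ : ℂ) (hζ : IsPrimitiveRoot ζ N) {ι : Type} (S : Finset ι) (a : ι → ℕ)
    (hS : S.Nonempty) (hcard : S.card < l) : ∑ i ∈ S, ζ ^ a i ≠ 0 := by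
  classical
  induction N using Nat.strong_induction_on generalizing ζ S a with
  | _ N ih =>
    intro h0
    rcases Nat.eq_or_lt_of_le (Nat.succ_le_of_lt hN) with h1 | h1
    · -- `N = 1`
      have hN1 : N = 1 := by omega
      subst hN1
      have hz : ζ = 1 := by simpa using hζ
      rw [hz] at h0
      simp only [one_pow, sum_const, nsmul_eq_mul, mul_one] at h0
      have h2 : S.card = 0 := by exact_mod_cast h0
      exact hS.card_ne_zero h2
    · obtain ⟨r, hr, hrN⟩ := Nat.exists_prime_and_dvd (n := N) (by omega)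
      obtain ⟨M, rfl⟩ := hrN
      have hM : 0 < M := Nat.pos_of_ne_zero (by rintro rfl; simp at hN)
      have hMlt : M < r * M := by nlinarith [hr.two_le]
      have hω : IsPrimitiveRoot (ζ ^ M) r := by
        refine hζ.pow hN ?_
        ring
      have hlr : l ≤ r := hl r hr (dvd_mul_right r M)
      have hr0 : (r : ℂ) ≠ 0 := by exact_mod_cast hr.ne_zero
      by_cases hrM : r ∣ M
      · -- `r` divides `M`
        have hcop : ∀ t, Nat.Coprime (1 + M * t) (r * M) := by
          intro t
          have h2 : Nat.Coprime (1 + M * t) M := by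
            rw [Nat.coprime_comm]
            simp
          exact Nat.Coprime.mul_right (Nat.Coprime.coprime_dvd_right hrM h2) h2
        obtain ⟨i0, hi0⟩ := hS
        -- the class of `a i0`
        obtain ⟨c, hc⟩ : ∃ c, r ∣ a i0 + c := ⟨a i0 * (r - 1), by
          have : a i0 + a i0 * (r - 1) = a i0 * r := by
            have := hr.one_le
            rw [Nat.mul_sub, mul_one]
            have h3 : a i0 ≤ a i0 * r := Nat.le_mul_of_pos_right _ hr.pos
            omega
          rw [this]
          exact dvd_mul_left r _⟩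
        have h2 := class_sum hω S a c
        have h3 : ∑ t ∈ range r, (ζ ^ M) ^ (t * c) * ∑ i ∈ S, (ζ ^ (1 + M * t)) ^ a i = 0 := by
          refine sum_eq_zero fun t _ => ?_
          rw [conj_zero hN hζ (hcop t) S a h0, mul_zero]
        rw [h3] at h2
        have h4 : ∑ i ∈ S with r ∣ a i + c, ζ ^ a i = 0 := by
          rcases mul_eq_zero.1 h2.symm with h5 | h5
          · exact absurd h5 hr0
          · exact h5
        set S' := S.filter fun i => r ∣ a i + c with hS'
        have hS'n : S'.Nonempty := ⟨i0, by rw [hS', mem_filter]; exact ⟨hi0, hc⟩⟩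
        have hS'c : S'.card < l := lt_of_le_of_lt (card_filter_le _ _) hcard
        -- residues of `a i` modulo `r` on `S'`
        have h5 : ∀ i ∈ S', a i % r = a i0 % r := by
          intro i hi
          have h6 : r ∣ a i + c := (mem_filter.1 hi).2
          have h7 : (a i + c) ≡ (a i0 + c) [MOD r] :=
            (Nat.modEq_zero_iff_dvd.2 h6).trans (Nat.modEq_zero_iff_dvd.2 hc).symm
          exact Nat.ModEq.add_right_cancel' c h7
        have hζr : IsPrimitiveRoot (ζ ^ r) M := hζ.pow hN rfl
        have h6 : ∑ i ∈ S', ζ ^ a i = ζ ^ (a i0 % r) * ∑ i ∈ S', (ζ ^ r) ^ (a i / r) := by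
          rw [mul_sum]
          refine sum_congr rfl fun i hi => ?_
          rw [← pow_mul, ← pow_add, ← h5 i hi, Nat.mod_add_div]
        have hζ0 : ζ ≠ 0 := hζ.ne_zero (by omega)
        rw [h6] at h4
        rcases mul_eq_zero.1 h4 with h7 | h7
        · exact pow_ne_zero _ hζ0 h7
        · exact ih M hMlt hM (fun q hq hqM => hl q hq (hqM.mul_left r)) (ζ ^ r) hζr S'
            (fun i => a i / r) hS'n hS'c h7
      · -- `r` does not divide `M`
        have hcopM : Nat.Coprime r M := (Nat.Prime.coprime_iff_not_dvd hr).2 hrM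
        -- the exceptional exponent
        obtain ⟨t0, ht0, ht0r⟩ : ∃ t0, r ∣ 1 + M * t0 ∧ t0 < r := by
          obtain ⟨u, hu⟩ := Nat.exists_mul_mod_eq_one_of_coprime (Nat.Coprime.symm hcopM) hr.one_lt
          refine ⟨(u * (r - 1)) % r, ?_, Nat.mod_lt _ hr.pos⟩
          have h2 : 1 + M * ((u * (r - 1)) % r) ≡ 0 [MOD r] := by
            have h3 : M * ((u * (r - 1)) % r) ≡ M * (u * (r - 1)) [MOD r] :=
              Nat.ModEq.mul_left _ (Nat.mod_modEq _ _)
            have h4 : M * (u * (r - 1)) = (M * u) * (r - 1) := by ring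
            have h5 : M * u ≡ 1 [MOD r] := by
              show M * u % r = 1 % r
              rw [hu.2, Nat.mod_eq_of_lt hr.one_lt]
            have h6 : M * ((u * (r - 1)) % r) ≡ 1 * (r - 1) [MOD r] := by
              refine h3.trans ?_
              rw [h4]
              exact Nat.ModEq.mul_right _ h5
            have h7 : 1 + M * ((u * (r - 1)) % r) ≡ 1 + 1 * (r - 1) [MOD r] :=
              Nat.ModEq.add_left 1 h6
            have h8 : 1 + 1 * (r - 1) = r := by have := hr.one_le; omega
            rw [h8] at h7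
            exact h7.trans (by simp [Nat.ModEq])
          exact (Nat.modEq_zero_iff_dvd).1 h2
        have hcop : ∀ t, t < r → t ≠ t0 → Nat.Coprime (1 + M * t) (r * M) := by
          intro t ht htt
          have h2 : Nat.Coprime (1 + M * t) M := by
            rw [Nat.coprime_comm]
            simp
          have h3 : Nat.Coprime (1 + M * t) r := by
            rw [Nat.coprime_comm, Nat.Prime.coprime_iff_not_dvd hr]
            intro h4
            apply htt
            have h5 : 1 + M * t ≡ 1 + M * t0 [MOD r] :=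
              (Nat.modEq_zero_iff_dvd.2 h4).trans (Nat.modEq_zero_iff_dvd.2 ht0).symm
            have h6 : M * t ≡ M * t0 [MOD r] := Nat.ModEq.add_left_cancel' 1 h5
            have h7 : t ≡ t0 [MOD r] := Nat.ModEq.cancel_left_of_coprime
              (by simpa using hcopM) h6
            exact Nat.ModEq.eq_of_lt_of_lt h7 ht ht0r
          exact Nat.Coprime.mul_right h3 h2
        set D := ∑ i ∈ S, (ζ ^ (1 + M * t0)) ^ a i with hD
        -- `D` is a sum for the smaller order `M`
        have hprim : IsPrimitiveRoot (ζ ^ (1 + M * t0)) M := by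
          obtain ⟨e, he⟩ := ht0
          rw [he, pow_mul]
          have hζr : IsPrimitiveRoot (ζ ^ r) M := hζ.pow hN rfl
          refine hζr.pow_of_coprime e ?_
          have h2 : Nat.Coprime (r * e) M := by
            rw [← he, Nat.coprime_comm]
            simp
          exact Nat.Coprime.coprime_mul_left h2
        have hD0 : D ≠ 0 :=
          ih M hMlt hM (fun q hq hqM => hl q hq (hqM.mul_left r)) _ hprim S a hS hcard
        -- every class modulo `r` is nonempty
        have h2 : ∀ c, c < r → ∃ i ∈ S, r ∣ a i + c := by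
          intro c _
          by_contra hne
          push Not at hne
          have h3 := class_sum hω S a c
          have h4 : (S.filter fun i => r ∣ a i + c) = ∅ := by
            rw [filter_eq_empty_iff]
            exact fun i hi => hne i hi
          rw [h4, sum_empty, mul_zero] at h3
          rw [sum_eq_single t0] at h3
          · rcases mul_eq_zero.1 h3 with h5 | h5
            · exact pow_ne_zero _ (hω.ne_zero hr.ne_zero) h5
            · exact hD0 h5
          · intro t ht htt
            rw [conj_zero hN hζ (hcop t (mem_range.1 ht) htt) S a h0, mul_zero]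
          · intro h5
            exact absurd (mem_range.2 ht0r) h5
        -- counting
        have h3 : r ≤ S.card := by
          have : Nonempty ι := ⟨hS.choose⟩
          choose! f hf using h2
          have h4 : (range r).card ≤ S.card := by
            refine card_le_card_of_injOn f (fun c hc => (hf c (mem_range.1 hc)).1) ?_
            intro c hc c' hc' hcc
            have hc1 := mem_range.1 (Finset.mem_coe.1 hc)
            have hc2 := mem_range.1 (Finset.mem_coe.1 hc')
            have h5 := (hf c hc1).2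
            have h6 := (hf c' hc2).2
            rw [hcc] at h5
            have h7 : a (f c') + c ≡ a (f c') + c' [MOD r] :=
              (Nat.modEq_zero_iff_dvd.2 h5).trans (Nat.modEq_zero_iff_dvd.2 h6).symm
            exact Nat.ModEq.eq_of_lt_of_lt (Nat.ModEq.add_left_cancel' _ h7) hc1 hc2
          simpa using h4
        omega

end Pool.Agent.Helper61.KZ
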